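import Mathlib

/-!
Definitions for `MP_d1af35_lc`: width and determinantal complexity over a commutative ring.
-/

open MvPolynomial

namespace Pool.Agent.Work.MP_d1af35_lc

/-- `f` is the bottom-right entry of a product `A 0 * A 1 * ⋯ * A (d - 1)` of `d` matrices of size
`n × n` (with `n ≥ 1`) all of whose entries are homogeneous linear forms (zero included). -/
def HasWidthRep {R : Type*} [CommRing R] {N : ℕ} (d n : ℕ) (f : MvPolynomial (Fin N) R) : Prop :=
  ∃ (h : 0 < n) (A : Fin d → Matrix (Fin n) (Fin n) (MvPolynomial (Fin N) R)),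
    (∀ k i j, (A k i j).IsHomogeneous 1) ∧
      (List.ofFn A).prod ⟨n - 1, Nat.sub_lt h Nat.one_pos⟩ ⟨n - 1, Nat.sub_lt h Nat.one_pos⟩ = f

open Classical in
/-- The width `w(f)` of a homogeneous polynomial `f` of degree `d`, with `w(0) = 0`. -/
noncomputable def width {R : Type*} [CommRing R] {N : ℕ} (d : ℕ) (f : MvPolynomial (Fin N) R) :
    ℕ :=
  if f = 0 then 0 else sInf {n | HasWidthRep d n f}

/-- The determinantal complexity `dc(f)`: least size of a matrix of polynomials of degree at most
one (affine linear polynomials) with determinant `f`. -/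
noncomputable def dc {R : Type*} [CommRing R] {N : ℕ} (f : MvPolynomial (Fin N) R) : ℕ :=
  sInf {n | ∃ M : Matrix (Fin n) (Fin n) (MvPolynomial (Fin N) R),
    (∀ i j, (M i j).totalDegree ≤ 1) ∧ M.det = f}

end Pool.Agent.Work.MP_d1af35_lc
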