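import Mathlib

/-!
Auxiliary lemmas for `MP_d1af35_lc` (width versus determinantal complexity over commutative rings).
-/

open MvPolynomial Matrix

namespace Pool.Agent.Work.MP_d1af35_lc

section Core

/-- The determinant of a square integer matrix factoring through a smaller dimension is zero. -/
lemma det_mul_eq_zero_of_card_lt {K ι : Type*} [Fintype K] [DecidableEq K] [Fintype ι]
    (A : Matrix K ι ℤ) (B : Matrix ι K ℤ) (h : Fintype.card ι < Fintype.card K) :
    (A * B).det = 0 := by
  by_contra hne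
  have hunit : IsUnit ((A * B).map (Int.castRingHom ℚ)) := by
    rw [Matrix.isUnit_iff_isUnit_det]
    have : ((A * B).map (Int.castRingHom ℚ)).det = (Int.castRingHom ℚ) (A * B).det := by
      rw [RingHom.map_det]; rfl
    rw [this, isUnit_iff_ne_zero]
    simpa using hne
  have h1 := Matrix.rank_of_isUnit _ hunit
  have h2 : ((A * B).map (Int.castRingHom ℚ)).rank ≤ Fintype.card ι := by
    rw [Matrix.map_mul]
    exact (Matrix.rank_mul_le_left _ _).trans (Matrix.rank_le_card_width _)
  omega

/-- If `2 ^ m • 1` over `ZMod (2 ^ (m + 1))` factors through `ι`, then `card K ≤ card ι`. -/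
lemma card_le_of_mul_eq {K ι : Type*} [Fintype K] [DecidableEq K] [Fintype ι] (m : ℕ)
    (P : Matrix K ι (ZMod (2 ^ (m + 1)))) (Q : Matrix ι K (ZMod (2 ^ (m + 1))))
    (h : P * Q = ((2 : ZMod (2 ^ (m + 1))) ^ m) • (1 : Matrix K K (ZMod (2 ^ (m + 1))))) :
    Fintype.card K ≤ Fintype.card ι := by
  by_contra hlt
  push Not at hlt
  have : NeZero (2 ^ (m + 1)) := ⟨by positivity⟩
  let φ : ℤ →+* ZMod (2 ^ (m + 1)) := Int.castRingHom _
  have hsurj : Function.Surjective φ := ZMod.ringHom_surjective φ
  choose g hg using hsurj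
  let P' : Matrix K ι ℤ := P.map g
  let Q' : Matrix ι K ℤ := Q.map g
  have hP : P'.map φ = P := by ext i j; simp [P', hg]
  have hQ : Q'.map φ = Q := by ext i j; simp [Q', hg]
  have hPQ : (P' * Q').map φ
      = ((2 : ZMod (2 ^ (m + 1))) ^ m) • (1 : Matrix K K (ZMod (2 ^ (m + 1)))) := by
    rw [Matrix.map_mul, hP, hQ, h]
  have hdiv : ∀ i j, ∃ c : ℤ, (P' * Q') i j = 2 ^ m * ((1 : Matrix K K ℤ) i j + 2 * c) := by
    intro i j
    have h1 : φ ((P' * Q') i j) = φ (2 ^ m * (1 : Matrix K K ℤ) i j) := by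
      have := congrFun (congrFun hPQ i) j
      simp only [Matrix.map_apply, Matrix.smul_apply] at this
      rw [this, map_mul, map_pow]
      by_cases hij : i = j
      · subst hij; simp
      · simp [Matrix.one_apply_ne hij]
    have h2 : ((2 ^ (m + 1) : ℕ) : ℤ) ∣ (P' * Q') i j - 2 ^ m * (1 : Matrix K K ℤ) i j := by
      rw [← ZMod.intCast_eq_intCast_iff_dvd_sub]
      exact h1.symm
    obtain ⟨c, hc⟩ := h2
    refine ⟨c, ?_⟩
    push_cast at hc
    rw [pow_succ] at hc
    linarith
  choose G hG using hdiv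
  have hmat : P' * Q' = (2 ^ m : ℤ) • ((1 : Matrix K K ℤ) + (2 : ℤ) • Matrix.of G) := by
    ext i j
    rw [hG]
    simp [Matrix.smul_apply, Matrix.add_apply]
  have hdet := det_mul_eq_zero_of_card_lt P' Q' hlt
  rw [hmat, Matrix.det_smul] at hdet
  have hdet2 : ((1 : Matrix K K ℤ) + (2 : ℤ) • Matrix.of G).det = 0 := by
    rcases mul_eq_zero.mp hdet with h0 | h0
    · exact absurd h0 (by positivity)
    · exact h0
  have : (Int.castRingHom (ZMod 2)) ((1 : Matrix K K ℤ) + (2 : ℤ) • Matrix.of G).det = 1 := by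
    rw [RingHom.map_det]
    have : (Int.castRingHom (ZMod 2)).mapMatrix ((1 : Matrix K K ℤ) + (2 : ℤ) • Matrix.of G)
        = 1 := by
      ext i j
      have h2 : (2 : ZMod 2) = 0 := by decide
      by_cases hij : i = j
      · subst hij; simp [h2]
      · simp [Matrix.one_apply_ne hij, h2]
    rw [this, Matrix.det_one]
  rw [hdet2] at this
  simp at this

end Core

section Pair

/-- `H` is a sum of `r` symmetrised rank one pieces. -/
def PairSum {R V : Type*} [CommRing R] (r : ℕ) (H : V → V → R) : Prop :=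
  ∃ (α β : Fin r → V → R), ∀ u v, H u v = ∑ i, (α i u * β i v + β i u * α i v)

lemma PairSum.add {R V : Type*} [CommRing R] {r s : ℕ} {H₁ H₂ : V → V → R}
    (h₁ : PairSum r H₁) (h₂ : PairSum s H₂) : PairSum (r + s) (fun u v => H₁ u v + H₂ u v) := by
  obtain ⟨α, β, h⟩ := h₁
  obtain ⟨α', β', h'⟩ := h₂
  refine ⟨Fin.append α α', Fin.append β β', fun u v => ?_⟩
  show H₁ u v + H₂ u v = _
  rw [Fin.sum_univ_add, h, h']
  simp

variable {σ R : Type*} [CommRing R]

/-- First derivative at the point `p`. -/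
noncomputable def D1 (p : σ → R) (u : σ) (g : MvPolynomial σ R) : R := eval p (pderiv u g)

/-- Second derivative at the point `p`. -/
noncomputable def D2 (p : σ → R) (u v : σ) (g : MvPolynomial σ R) : R :=
  eval p (pderiv u (pderiv v g))

lemma D1_sum (p : σ → R) (u : σ) {ι : Type*} (s : Finset ι) (g : ι → MvPolynomial σ R) :
    D1 p u (∑ i ∈ s, g i) = ∑ i ∈ s, D1 p u (g i) := by
  simp [D1]

lemma D2_sum (p : σ → R) (u v : σ) {ι : Type*} (s : Finset ι) (g : ι → MvPolynomial σ R) :
    D2 p u v (∑ i ∈ s, g i) = ∑ i ∈ s, D2 p u v (g i) := by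
  simp [D2]

lemma D2_mul (p : σ → R) (u v : σ) (g h : MvPolynomial σ R) :
    D2 p u v (g * h) = eval p g * D2 p u v h + D1 p u g * D1 p v h + D1 p v g * D1 p u h
      + D2 p u v g * eval p h := by
  simp only [D1, D2, Derivation.leibniz, smul_eq_mul, map_add, map_mul]
  ring

lemma D2_of_homog (p : σ → R) (u v : σ) (g : MvPolynomial σ R) (hg : g.IsHomogeneous 1) :
    D2 p u v g = 0 := by
  have h1 : (pderiv v g).IsHomogeneous 0 := by simpa using hg.pderiv (i := v)
  have h2 : pderiv v g = C (coeff 0 (pderiv v g)) := by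
    apply totalDegree_eq_zero_iff_eq_C.mp
    exact (totalDegree_zero_iff_isHomogeneous _).mpr h1
  rw [D2, h2]
  simp

lemma pairSum_prod {n : ℕ} (p : σ → R) (l : List (Matrix (Fin n) (Fin n) (MvPolynomial σ R)))
    (hl : ∀ A ∈ l, ∀ i j, (A i j).IsHomogeneous 1) (r s : Fin n → R) :
    PairSum (l.length * n) (fun u v => ∑ i, ∑ j, r i * D2 p u v (l.prod i j) * s j) := by
  induction l generalizing r s with
  | nil =>
    rw [List.length_nil, Nat.zero_mul]
    refine ⟨fun i => i.elim0, fun i => i.elim0, fun u v => ?_⟩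
    simp only [List.prod_nil, Finset.univ_eq_empty, Finset.sum_empty]
    refine Finset.sum_eq_zero fun i _ => Finset.sum_eq_zero fun j _ => ?_
    by_cases hij : i = j
    · subst hij; simp [D2]
    · simp [D2, Matrix.one_apply_ne hij]
  | cons A l ih =>
    have hA : ∀ i j, (A i j).IsHomogeneous 1 := hl A (by simp)
    have hl' : ∀ B ∈ l, ∀ i j, (B i j).IsHomogeneous 1 := fun B hB => hl B (by simp [hB])
    have h1 := ih hl' (fun k => ∑ i, r i * eval p (A i k)) s
    have h2 : PairSum n (fun u v =>
        ∑ k, ((∑ i, r i * D1 p u (A i k)) * (∑ j, D1 p v (l.prod k j) * s j)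
        + (∑ j, D1 p u (l.prod k j) * s j) * (∑ i, r i * D1 p v (A i k)))) :=
      ⟨fun k u => ∑ i, r i * D1 p u (A i k), fun k u => ∑ j, D1 p u (l.prod k j) * s j,
        fun u v => rfl⟩
    have h3 := h1.add h2
    rw [List.length_cons, Nat.succ_mul]
    convert h3 using 3 with u v
    simp only [List.prod_cons, Matrix.mul_apply, D2_sum, D2_mul, D2_of_homog p _ _ _ (hA _ _),
      zero_mul, add_zero]
    simp only [Finset.mul_sum, Finset.sum_mul, mul_add, add_mul, Finset.sum_add_distrib]
    have e1 : ∀ F : Fin n → Fin n → Fin n → R,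
        ∑ i, ∑ j, ∑ k, F i j k = ∑ k, ∑ j, ∑ i, F i j k := by
      intro F
      rw [Finset.sum_comm]
      rw [Finset.sum_congr rfl (fun j _ => Finset.sum_comm)]
      rw [Finset.sum_comm]
    rw [e1 (fun i j k => r i * (eval p (A i k) * D2 p u v (l.prod k j)) * s j),
      e1 (fun i j k => r i * (D1 p u (A i k) * D1 p v (l.prod k j)) * s j),
      e1 (fun i j k => r i * (D1 p v (A i k) * D1 p u (l.prod k j)) * s j)]
    rw [add_assoc]
    congr 1
    · refine Finset.sum_congr rfl fun k _ => Finset.sum_congr rfl fun j _ =>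
        Finset.sum_congr rfl fun i _ => by ring
    · congr 1
      · refine Finset.sum_congr rfl fun k _ => Finset.sum_congr rfl fun j _ =>
          Finset.sum_congr rfl fun i _ => by ring
      · refine Finset.sum_congr rfl fun k _ => ?_
        rw [Finset.sum_comm]
        refine Finset.sum_congr rfl fun j _ => Finset.sum_congr rfl fun i _ => by ring

end Pair

section Det

lemma prod_add_mul {S ι : Type*} [CommRing S] (s t : S) (ht : t * t = 0) (F : Finset ι)
    (a : ι → S) :
    ∏ i ∈ F, (s + t * a i) = s ^ F.card + s ^ (F.card - 1) * t * ∑ i ∈ F, a i := by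
  classical
  induction F using Finset.induction_on with
  | empty => simp
  | insert j F hj ih =>
    rw [Finset.prod_insert hj, ih, Finset.sum_insert hj, Finset.card_insert_of_notMem hj]
    rcases Nat.eq_zero_or_pos F.card with h0 | hpos
    · have : F = ∅ := Finset.card_eq_zero.mp h0
      subst this
      simp
    · obtain ⟨k, hk⟩ : ∃ k, F.card = k + 1 := ⟨F.card - 1, by omega⟩
      rw [hk]
      simp only [Nat.add_sub_cancel]
      have : (s + t * a j) * (s ^ (k + 1) + s ^ k * t * ∑ i ∈ F, a i)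
          = s ^ (k + 1 + 1) + s ^ (k + 1) * t * (a j + ∑ i ∈ F, a i)
            + (t * t) * (s ^ k * a j * ∑ i ∈ F, a i) := by ring
      rw [this, ht]; ring

lemma det_smul_one_add {S n : Type*} [CommRing S] [Fintype n] [DecidableEq n] (s t : S)
    (ht : t * t = 0) (N : Matrix n n S) :
    (s • (1 : Matrix n n S) + t • N).det
      = s ^ Fintype.card n + s ^ (Fintype.card n - 1) * t * N.trace := by
  rw [Matrix.det_apply']
  rw [Finset.sum_eq_single (1 : Equiv.Perm n)]
  · simp only [Equiv.Perm.sign_one, Units.val_one, Int.cast_one, one_mul, Equiv.Perm.coe_one, id,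
      Matrix.add_apply, Matrix.smul_apply, Matrix.one_apply_eq, smul_eq_mul, mul_one]
    rw [prod_add_mul s t ht Finset.univ (fun i => N i i)]
    rfl
  · intro π _ hπ
    obtain ⟨i, hi⟩ : ∃ i, π i ≠ i := by
      by_contra hcon
      push Not at hcon
      exact hπ (Equiv.ext hcon)
    have hj : π (π i) ≠ π i := fun h => hi (π.injective h)
    have hmem : π i ∈ Finset.univ.erase i := Finset.mem_erase.mpr ⟨hi, Finset.mem_univ _⟩
    rw [← Finset.mul_prod_erase Finset.univ _ (Finset.mem_univ i),
      ← Finset.mul_prod_erase (Finset.univ.erase i) _ hmem]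
    simp only [Matrix.add_apply, Matrix.smul_apply, Matrix.one_apply_ne hi, Matrix.one_apply_ne hj,
      smul_eq_mul, mul_zero, zero_add]
    have : ∀ x y z w : S, x * (t * y * (t * z * w)) = (t * t) * (x * y * z * w) := by
      intros; ring
    rw [this, ht, zero_mul]
  · intro h; exact absurd (Finset.mem_univ _) h

end Det

end Pool.Agent.Work.MP_d1af35_lc
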