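import Pool.Agent.Work.MP_d1af35_lc.Defs
import Pool.Agent.Work.MP_d1af35_lc.Lemmas

/-!
# Width versus determinantal complexity over commutative rings

For every degree `d ≥ 2` the ratio `w(f) / dc(f)` is unbounded as `R` ranges over commutative rings
and `f` over nonzero homogeneous polynomials of degree `d` over `R`.

The witness: `R` is the ring of dual numbers over `ℤ / 2 ^ m`, and, with `ε ^ 2 = 0`,
`f = 2 ^ (m - 1) ε (∑ i j, x i j * y i j) z ^ (d - 2)` with `i, j < m`, which is the determinant of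
a block matrix of size `2 * m + (d - 2)`, while its width is at least `m ^ 2 / (2 * d)`.
The lower bound on the width: the Hessian of `f` at the point `x = y = 0`, `z = 1` is
`2 ^ (m - 1) ε` times a permutation matrix of size `2 * m ^ 2`; a width `n` representation writes
it as a sum of `d * n` symmetrised products, so taking the `ε` part and lifting to integers gives
`2 ^ (m - 1) (J + 2 G)` as a product through dimension `4 * d * n`, and `det (J + 2 G)` is odd.
-/

open MvPolynomial Matrix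

namespace Pool.Agent.Work.MP_d1af35_lc

section Generic

variable {N m : ℕ} {R : Type*} [CommRing R]
variable (a b : Fin m × Fin m → Fin N) (c : Fin N)

/-- The witness polynomial. -/
noncomputable def poly (r : R) (e : ℕ) : MvPolynomial (Fin N) R :=
  (C r * ∑ k, X (a k) * X (b k)) * X c ^ e

lemma poly_homog (r : R) (e : ℕ) : (poly a b c r e).IsHomogeneous (e + 2) := by
  have h1 : (∑ k, X (a k) * X (b k) : MvPolynomial (Fin N) R).IsHomogeneous 2 := by
    apply IsHomogeneous.sum
    intro k _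
    exact (isHomogeneous_X R (a k)).mul (isHomogeneous_X R (b k))
  have h2 : (C r * ∑ k, X (a k) * X (b k) : MvPolynomial (Fin N) R).IsHomogeneous (0 + 2) :=
    (isHomogeneous_C _ r).mul h1
  have h3 : (X c ^ e : MvPolynomial (Fin N) R).IsHomogeneous (1 * e) :=
    (isHomogeneous_X R c).pow e
  have h4 := h2.mul h3
  have : 0 + 2 + 1 * e = e + 2 := by ring
  rw [this] at h4
  exact h4

lemma hasWidthRep_of_sum {n e : ℕ} (hn : 0 < n) (g h : Fin n → MvPolynomial (Fin N) R)
    (hg : ∀ k, (g k).IsHomogeneous 1) (hh : ∀ k, (h k).IsHomogeneous 1) :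
    HasWidthRep (e + 2) n ((∑ k, g k * h k) * X c ^ e) := by
  classical
  refine ⟨hn, Fin.cons (Matrix.of fun i j => g j) (Fin.cons (Matrix.of fun i j => h i)
    (fun _ : Fin e => (X c : MvPolynomial (Fin N) R) • (1 : Matrix (Fin n) (Fin n) _))), ?_, ?_⟩
  · intro k
    refine Fin.cases ?_ (fun k => ?_) k
    · intro i j; simpa using hg j
    · refine Fin.cases ?_ (fun k => ?_) k
      · intro i j; simpa using hh i
      · intro i j
        simp only [Fin.cons_succ, Matrix.smul_apply, smul_eq_mul]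
        by_cases hij : i = j
        · subst hij; simpa using isHomogeneous_X R c
        · simpa [Matrix.one_apply_ne hij] using isHomogeneous_zero _ _ _
  · rw [List.ofFn_succ, List.ofFn_succ]
    simp only [Fin.cons_zero, Fin.cons_succ, List.ofFn_const, List.prod_cons, List.prod_replicate]
    rw [smul_pow, one_pow, Matrix.mul_smul, mul_one, Matrix.mul_smul, Matrix.smul_apply,
      smul_eq_mul, mul_comm, Matrix.mul_apply]
    rfl

/-- The Hessian of the witness at the point with `z = 1` and all other coordinates zero. -/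
lemma D1_X (p : Fin N → R) (u i : Fin N) :
    D1 p u (X i : MvPolynomial (Fin N) R) = if i = u then 1 else 0 := by
  classical
  by_cases h : i = u
  · subst h; simp [D1]
  · simp [D1, h, pderiv_X_of_ne h]

lemma D2_X_mul_X (p : Fin N → R) (u v i j : Fin N) :
    D2 p u v (X i * X j : MvPolynomial (Fin N) R)
      = (if i = u then 1 else 0) * (if j = v then 1 else 0)
        + (if i = v then 1 else 0) * (if j = u then 1 else 0) := by
  rw [D2_mul, D2_of_homog _ _ _ _ (isHomogeneous_X R i), D2_of_homog _ _ _ _ (isHomogeneous_X R j),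
    D1_X, D1_X, D1_X, D1_X]
  ring

lemma D2_poly (r : R) (e : ℕ) (u v : Fin N) (hu : u ≠ c) (hv : v ≠ c) :
    D2 (Pi.single c 1) u v (poly a b c r e)
      = r * ∑ k, ((if a k = u then 1 else 0) * (if b k = v then 1 else 0)
        + (if a k = v then 1 else 0) * (if b k = u then 1 else 0)) := by
  have hpu : pderiv u (X c ^ e : MvPolynomial (Fin N) R) = 0 := by
    rw [Derivation.leibniz_pow, pderiv_X_of_ne hu.symm]; simp
  have hpv : pderiv v (X c ^ e : MvPolynomial (Fin N) R) = 0 := by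
    rw [Derivation.leibniz_pow, pderiv_X_of_ne hv.symm]; simp
  rw [poly, D2_mul]
  have h1 : D1 (Pi.single c 1) u (X c ^ e : MvPolynomial (Fin N) R) = 0 := by
    rw [D1, hpu, map_zero]
  have h2 : D1 (Pi.single c 1) v (X c ^ e : MvPolynomial (Fin N) R) = 0 := by
    rw [D1, hpv, map_zero]
  have h3 : D2 (Pi.single c 1) u v (X c ^ e : MvPolynomial (Fin N) R) = 0 := by
    rw [D2, hpv, map_zero, map_zero]
  rw [h1, h2, h3, D2_mul]
  have h4 : ∀ w, D1 (Pi.single c 1) w (C r : MvPolynomial (Fin N) R) = 0 := by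
    intro w; simp [D1]
  have h5 : D2 (Pi.single c 1) u v (C r : MvPolynomial (Fin N) R) = 0 := by
    simp [D2]
  rw [h4, h4, h5, D2_sum]
  simp only [D2_X_mul_X]
  simp

end Generic

section Witness

variable {N m : ℕ}
variable (a b : Fin (m + 1) × Fin (m + 1) → Fin N) (c : Fin N)

/-- The coefficient ring: dual numbers over `ℤ / 2 ^ (m + 1)`. -/
abbrev Ring0 (m : ℕ) : Type := DualNumber (ZMod (2 ^ (m + 1)))

lemma two_pow_zero : (2 : ZMod (2 ^ (m + 1))) ^ (m + 1) = 0 := by
  have := ZMod.natCast_self (2 ^ (m + 1))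
  push_cast at this
  exact this

lemma two_pow_ne_zero : (2 : ZMod (2 ^ (m + 1))) ^ m ≠ 0 := by
  intro h
  have h1 : ((2 ^ m : ℕ) : ZMod (2 ^ (m + 1))) = 0 := by push_cast; exact h
  rw [ZMod.natCast_eq_zero_iff] at h1
  have h2 := Nat.le_of_dvd (by positivity) h1
  have h3 : 2 ^ m < 2 ^ (m + 1) := Nat.pow_lt_pow_right (by norm_num) (by omega)
  omega

lemma two_eq : (2 : Ring0 m) = TrivSqZeroExt.inl 2 := rfl

lemma lower {e n : ℕ} (ha : Function.Injective a) (hb : Function.Injective b)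
    (hab : ∀ k l, a k ≠ b l) (hac : ∀ k, a k ≠ c) (hbc : ∀ k, b k ≠ c)
    (h : HasWidthRep (e + 2) n (poly (R := Ring0 m) a b c (TrivSqZeroExt.inr (2 ^ m)) e)) :
    (m + 1) ^ 2 ≤ 2 * ((e + 2) * n) := by
  classical
  obtain ⟨hn, A, hA, hprod⟩ := h
  set last : Fin n := ⟨n - 1, Nat.sub_lt hn Nat.one_pos⟩
  have hps := pairSum_prod (Pi.single c 1) (List.ofFn A) (by
    intro B hB
    rw [List.mem_ofFn] at hB
    obtain ⟨k, rfl⟩ := hB
    exact hA k) (Pi.single last 1) (Pi.single last 1)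
  obtain ⟨α, β, hαβ⟩ := hps
  have key : ∀ u v, D2 (Pi.single c 1) u v
      (poly (R := Ring0 m) a b c (TrivSqZeroExt.inr (2 ^ m)) e)
      = ∑ i, (α i u * β i v + β i u * α i v) := by
    intro u v
    rw [← hαβ u v, ← hprod]
    beta_reduce
    rw [Finset.sum_eq_single last, Finset.sum_eq_single last]
    · simp
    · intro j _ hj; simp [hj]
    · intro hj; exact absurd (Finset.mem_univ _) hj
    · intro i _ hi; simp [hi]
    · intro hi; exact absurd (Finset.mem_univ _) hi
  let κ := Fin (m + 1) × Fin (m + 1)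
  let row : κ ⊕ κ → Fin N := Sum.elim a b
  let col : κ ⊕ κ → Fin N := Sum.elim b a
  have hrow : ∀ s, row s ≠ c := by rintro (s | s) <;> simp [row, hac, hbc]
  have hcol : ∀ s, col s ≠ c := by rintro (s | s) <;> simp [col, hac, hbc]
  have hba : ∀ k l, b k ≠ a l := fun k l h => hab l k h.symm
  have hval : ∀ s t, D2 (Pi.single c 1) (row s) (col t)
      (poly (R := Ring0 m) a b c (TrivSqZeroExt.inr (2 ^ m)) e)
      = TrivSqZeroExt.inr (2 ^ m) * (if s = t then 1 else 0) := by
    intro s t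
    rw [D2_poly a b c _ e _ _ (hrow s) (hcol t)]
    congr 1
    rcases s with s | s <;> rcases t with t | t
    · simp only [row, col, Sum.elim_inl, ha.eq_iff, hb.eq_iff, hab, hba, if_false, mul_zero,
        zero_mul, add_zero, Sum.inl.injEq]
      rw [Finset.sum_eq_single s]
      · simp
      · intro k _ hk; simp [hk]
      · intro hk; exact absurd (Finset.mem_univ _) hk
    · simp only [row, col, Sum.elim_inl, Sum.elim_inr, ha.eq_iff, hb.eq_iff, hab, hba, if_false,
        mul_zero, zero_mul, add_zero, Finset.sum_const_zero, reduceCtorEq]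
    · simp only [row, col, Sum.elim_inl, Sum.elim_inr, ha.eq_iff, hb.eq_iff, hab, hba, if_false,
        mul_zero, zero_mul, add_zero, Finset.sum_const_zero, reduceCtorEq]
    · simp only [row, col, Sum.elim_inr, ha.eq_iff, hb.eq_iff, hab, hba, if_false, mul_zero,
        zero_mul, zero_add, Sum.inr.injEq]
      rw [Finset.sum_eq_single s]
      · by_cases hst : s = t
        · subst hst; simp
        · simp [hst]
      · intro k _ hk; simp [hk]
      · intro hk; exact absurd (Finset.mem_univ _) hk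
  let L := (List.ofFn A).length * n
  let ι := (Fin L ⊕ Fin L) ⊕ (Fin L ⊕ Fin L)
  let P : Matrix (κ ⊕ κ) ι (ZMod (2 ^ (m + 1))) := Matrix.of fun s i =>
    Sum.elim (Sum.elim (fun i => (α i (row s)).fst) (fun i => (α i (row s)).snd))
      (Sum.elim (fun i => (β i (row s)).fst) (fun i => (β i (row s)).snd)) i
  let Q : Matrix ι (κ ⊕ κ) (ZMod (2 ^ (m + 1))) := Matrix.of fun i t =>
    Sum.elim (Sum.elim (fun i => (β i (col t)).snd) (fun i => (β i (col t)).fst))
      (Sum.elim (fun i => (α i (col t)).snd) (fun i => (α i (col t)).fst)) i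
  have hPQ : P * Q = ((2 : ZMod (2 ^ (m + 1))) ^ m) • (1 : Matrix (κ ⊕ κ) (κ ⊕ κ) _) := by
    ext s t
    have h1 := (hval s t).symm.trans (key (row s) (col t))
    have h2 := congrArg TrivSqZeroExt.snd h1
    rw [TrivSqZeroExt.snd_sum] at h2
    simp only [TrivSqZeroExt.snd_add, TrivSqZeroExt.snd_mul, smul_eq_mul,
      MulOpposite.smul_eq_mul_unop, MulOpposite.unop_op, TrivSqZeroExt.snd_inr,
      TrivSqZeroExt.fst_inr, zero_mul, zero_add] at h2
    have h3 : (TrivSqZeroExt.fst (if s = t then (1 : Ring0 m) else 0))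
        = (1 : Matrix (κ ⊕ κ) (κ ⊕ κ) (ZMod (2 ^ (m + 1)))) s t := by
      by_cases hst : s = t
      · subst hst; simp
      · simp [hst, Matrix.one_apply_ne hst]
    rw [Matrix.smul_apply, ← h3, smul_eq_mul, h2, Matrix.mul_apply]
    simp only [ι, Fintype.sum_sum_type, P, Q, Matrix.of_apply, Sum.elim_inl, Sum.elim_inr]
    simp only [Finset.sum_add_distrib]
    simp only [mul_comm]
    ring
  have hcard := card_le_of_mul_eq m P Q hPQ
  simp only [κ, ι, L, Fintype.card_sum, Fintype.card_prod, Fintype.card_fin,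
    List.length_ofFn] at hcard
  rw [sq]
  omega

/-- The witness is a determinant of affine linear polynomials of size `2 * (m + 1) + e`. -/
lemma dc_le (e : ℕ) :
    dc (poly (R := Ring0 m) a b c (TrivSqZeroExt.inr (2 ^ m)) e) ≤ ((m + 1) + (m + 1)) + e := by
  classical
  set S := MvPolynomial (Fin N) (Ring0 m) with hS
  let Xm : Matrix (Fin (m + 1)) (Fin (m + 1)) S := Matrix.of fun i j => X (a (i, j))
  let Ym : Matrix (Fin (m + 1)) (Fin (m + 1)) S := Matrix.of fun i j => X (b (j, i))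
  let τ : S := C (TrivSqZeroExt.inr 1)
  let M₀ : Matrix ((Fin (m + 1) ⊕ Fin (m + 1)) ⊕ Fin e) ((Fin (m + 1) ⊕ Fin (m + 1)) ⊕ Fin e) S :=
    Matrix.fromBlocks (Matrix.fromBlocks ((C 2 : S) • 1) (τ • Xm) (-Ym) 1) 0 0
      ((X c : S) • 1)
  have hdet : M₀.det = poly (R := Ring0 m) a b c (TrivSqZeroExt.inr (2 ^ m)) e := by
    rw [Matrix.det_fromBlocks_zero₂₁, Matrix.det_fromBlocks_one₂₂, Matrix.det_smul,
      Matrix.det_one, mul_one, Fintype.card_fin]
    have h1 : (C 2 : S) • (1 : Matrix (Fin (m + 1)) (Fin (m + 1)) S) - τ • Xm * -Ym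
        = (C 2 : S) • 1 + τ • (Xm * Ym) := by
      rw [Matrix.mul_neg, sub_neg_eq_add, Matrix.smul_mul]
    have hτ : τ * τ = 0 := by
      show (C (TrivSqZeroExt.inr 1) : S) * C (TrivSqZeroExt.inr 1) = 0
      rw [← map_mul, TrivSqZeroExt.inr_mul_inr, map_zero]
    rw [h1, det_smul_one_add _ _ hτ, Fintype.card_fin]
    have h2 : (C 2 : S) ^ (m + 1) = 0 := by
      rw [← C_pow, two_eq, TrivSqZeroExt.inl_pow, two_pow_zero, TrivSqZeroExt.inl_zero, C_0]
    have h3 : (C 2 : S) ^ (m + 1 - 1) * τ = C (TrivSqZeroExt.inr (2 ^ m)) := by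
      rw [Nat.add_sub_cancel, ← C_pow, ← C_mul, two_eq, TrivSqZeroExt.inl_pow,
        TrivSqZeroExt.inl_mul_inr, smul_eq_mul, mul_one]
    have h4 : (Xm * Ym).trace = ∑ k, X (a k) * X (b k) := by
      rw [Fintype.sum_prod_type]
      simp only [Matrix.trace, Matrix.diag, Matrix.mul_apply, Xm, Ym, Matrix.of_apply]
    rw [h2, h3, h4, zero_add, poly]
  have hdeg : ∀ i j, (M₀ i j).totalDegree ≤ 1 := by
    have hone : ∀ {n : Type} [DecidableEq n] (i j : n) (g : S), g.totalDegree ≤ 1 →
        (g • (1 : Matrix n n S) i j).totalDegree ≤ 1 := by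
      intro n _ i j g hg
      by_cases hij : i = j
      · subst hij; simpa using hg
      · simp [Matrix.one_apply_ne hij]
    have hC : ∀ r : Ring0 m, (C r : S).totalDegree ≤ 1 := by
      intro r; simp
    have hX : ∀ (r : Ring0 m) (i : Fin N), (C r * X i : S).totalDegree ≤ 1 := by
      intro r i
      exact (totalDegree_mul _ _).trans (by simpa using (isHomogeneous_X _ i).totalDegree_le)
    have hX' : ∀ (i : Fin N), (X i : S).totalDegree ≤ 1 := by
      intro i
      exact (isHomogeneous_X _ i).totalDegree_le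
    rintro ((i | i) | i) ((j | j) | j)
    · simpa [M₀] using hone i j (C 2) (hC 2)
    · simpa [M₀, τ, Xm] using hX _ _
    · simp [M₀]
    · simpa [M₀, Ym] using hX' _
    · simpa [M₀] using hone i j 1 (by simp)
    · simp [M₀]
    · simp [M₀]
    · simp [M₀]
    · simpa [M₀] using hone i j (X c) (hX' c)
  let ε : (Fin (m + 1) ⊕ Fin (m + 1)) ⊕ Fin e ≃ Fin (((m + 1) + (m + 1)) + e) :=
    (Equiv.sumCongr finSumFinEquiv (Equiv.refl _)).trans finSumFinEquiv
  apply Nat.sInf_le
  refine ⟨Matrix.reindex ε ε M₀, fun i j => hdeg _ _, ?_⟩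
  rw [Matrix.det_reindex_self, hdet]

lemma poly_ne_zero (e : ℕ) (ha : Function.Injective a) (hb : Function.Injective b)
    (hab : ∀ k l, a k ≠ b l) (hac : ∀ k, a k ≠ c) (hbc : ∀ k, b k ≠ c) :
    poly (R := Ring0 m) a b c (TrivSqZeroExt.inr (2 ^ m)) e ≠ 0 := by
  classical
  intro h
  have h1 := D2_poly (R := Ring0 m) a b c (TrivSqZeroExt.inr (2 ^ m)) e (a (0, 0)) (b (0, 0))
    (hac _) (hbc _)
  rw [h] at h1
  have hba : ∀ k l, b k ≠ a l := fun k l h => hab l k h.symm
  simp only [D2, map_zero, ha.eq_iff, hb.eq_iff, hab, hba, if_false, mul_zero, add_zero] at h1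
  rw [Finset.sum_eq_single (0, 0)] at h1
  · simp only [if_true, mul_one] at h1
    have h2 := congrArg TrivSqZeroExt.snd h1
    simp only [TrivSqZeroExt.snd_zero, TrivSqZeroExt.snd_inr] at h2
    exact two_pow_ne_zero h2.symm
  · intro k _ hk; simp [hk]
  · intro hk; exact absurd (Finset.mem_univ _) hk

lemma rep_witness (e : ℕ) :
    HasWidthRep (e + 2) ((m + 1) * (m + 1))
      (poly (R := Ring0 m) a b c (TrivSqZeroExt.inr (2 ^ m)) e) := by
  let ψ : Fin (m + 1) × Fin (m + 1) ≃ Fin ((m + 1) * (m + 1)) := finProdFinEquiv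
  have h := hasWidthRep_of_sum (R := Ring0 m) c (n := (m + 1) * (m + 1)) (e := e) (by positivity)
    (fun k => MvPolynomial.C (TrivSqZeroExt.inr (2 ^ m)) * X (a (ψ.symm k)))
    (fun k => X (b (ψ.symm k)))
    (fun k => by
      have := (isHomogeneous_C (Fin N) (TrivSqZeroExt.inr (2 ^ m) : Ring0 m)).mul
        (isHomogeneous_X (Ring0 m) (a (ψ.symm k)))
      simpa using this)
    (fun k => isHomogeneous_X _ _)
  have h2 : poly (R := Ring0 m) a b c (TrivSqZeroExt.inr (2 ^ m)) e
      = (∑ k, (MvPolynomial.C (TrivSqZeroExt.inr (2 ^ m)) * X (a (ψ.symm k)))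
          * X (b (ψ.symm k))) * X c ^ e := by
    rw [poly, Finset.mul_sum, ← Equiv.sum_comp ψ.symm]
    congr 1
    refine Finset.sum_congr rfl fun k _ => ?_
    rw [mul_assoc]
  rw [h2]
  exact h

/-- The width of the witness is at least quadratic in `m`. -/
lemma width_lower (e : ℕ) (ha : Function.Injective a) (hb : Function.Injective b)
    (hab : ∀ k l, a k ≠ b l) (hac : ∀ k, a k ≠ c) (hbc : ∀ k, b k ≠ c) :
    (m + 1) ^ 2 ≤ 2 * ((e + 2) * width (e + 2)
      (poly (R := Ring0 m) a b c (TrivSqZeroExt.inr (2 ^ m)) e)) := by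
  rw [width, if_neg (poly_ne_zero a b c e ha hb hab hac hbc)]
  have hne : {n | HasWidthRep (e + 2) n
      (poly (R := Ring0 m) a b c (TrivSqZeroExt.inr (2 ^ m)) e)}.Nonempty :=
    ⟨_, rep_witness a b c e⟩
  exact lower a b c ha hb hab hac hbc (Nat.sInf_mem hne)

end Witness

/-- The witness in terms of `m`. -/
lemma exists_witness (e m : ℕ) :
    ∃ (R : Type) (_ : CommRing R) (N : ℕ) (f : MvPolynomial (Fin N) R),
      f ≠ 0 ∧ f.IsHomogeneous (e + 2) ∧ dc f ≤ ((m + 1) + (m + 1)) + e ∧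
        (m + 1) ^ 2 ≤ 2 * ((e + 2) * width (e + 2) f) := by
  let κ := Fin (m + 1) × Fin (m + 1)
  let ϕ := Fintype.equivFin ((κ ⊕ κ) ⊕ Unit)
  let a : κ → Fin (Fintype.card ((κ ⊕ κ) ⊕ Unit)) := fun k => ϕ (Sum.inl (Sum.inl k))
  let b : κ → Fin (Fintype.card ((κ ⊕ κ) ⊕ Unit)) := fun k => ϕ (Sum.inl (Sum.inr k))
  let c : Fin (Fintype.card ((κ ⊕ κ) ⊕ Unit)) := ϕ (Sum.inr ())
  have ha : Function.Injective a := by
    intro k l h
    exact Sum.inl_injective (Sum.inl_injective (ϕ.injective h))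
  have hb : Function.Injective b := by
    intro k l h
    exact Sum.inr_injective (Sum.inl_injective (ϕ.injective h))
  have hab : ∀ k l, a k ≠ b l := by
    intro k l h
    exact Sum.inl_ne_inr (Sum.inl_injective (ϕ.injective h))
  have hac : ∀ k, a k ≠ c := by
    intro k h
    exact Sum.inl_ne_inr (ϕ.injective h)
  have hbc : ∀ k, b k ≠ c := by
    intro k h
    exact Sum.inl_ne_inr (ϕ.injective h)
  exact ⟨Ring0 m, inferInstance, _, poly a b c (TrivSqZeroExt.inr (2 ^ m)) e,
    poly_ne_zero a b c e ha hb hab hac hbc, poly_homog a b c _ e, dc_le a b c e,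
    width_lower a b c e ha hb hab hac hbc⟩

/-- **Main theorem.** For every degree `d ≥ 2` and every constant `C` there are a commutative ring
`R` and a nonzero homogeneous polynomial `f` of degree `d` over `R` with `w(f) > C · dc(f)`. -/
theorem main (d : ℕ) (hd : 2 ≤ d) (C : ℕ) :
    ∃ (R : Type) (_ : CommRing R) (N : ℕ) (f : MvPolynomial (Fin N) R),
      f ≠ 0 ∧ f.IsHomogeneous d ∧ C * dc f < width d f := by
  obtain ⟨e, rfl⟩ : ∃ e, d = e + 2 := ⟨d - 2, by omega⟩
  obtain ⟨R, inst, N, f, hf0, hfh, hdc, hlow⟩ := exists_witness e (6 * C * (e + 2) + (e + 2))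
  refine ⟨R, inst, N, f, hf0, hfh, ?_⟩
  set m := 6 * C * (e + 2) + (e + 2) with hm
  clear_value m
  by_contra hcon
  push Not at hcon
  have h1 : width (e + 2) f ≤ C * (((m + 1) + (m + 1)) + e) :=
    hcon.trans (Nat.mul_le_mul_left _ hdc)
  have h2 : (m + 1) ^ 2 ≤ 2 * ((e + 2) * (C * (((m + 1) + (m + 1)) + e))) :=
    hlow.trans (Nat.mul_le_mul_left _ (Nat.mul_le_mul_left _ h1))
  have h3 : ((m + 1) + (m + 1)) + e ≤ 3 * (m + 1) := by
    have : e ≤ m := by rw [hm]; exact le_trans (by omega) (Nat.le_add_left _ _)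
    omega
  have h4 : 2 * ((e + 2) * (C * (((m + 1) + (m + 1)) + e)))
      ≤ 2 * ((e + 2) * (C * (3 * (m + 1)))) :=
    Nat.mul_le_mul_left _ (Nat.mul_le_mul_left _ (Nat.mul_le_mul_left _ h3))
  have h5 : 2 * ((e + 2) * (C * (3 * (m + 1)))) = (6 * C * (e + 2)) * (m + 1) := by ring
  have h6 : (m + 1) * (m + 1) ≤ (6 * C * (e + 2)) * (m + 1) := by
    calc (m + 1) * (m + 1) = (m + 1) ^ 2 := by ring
      _ ≤ _ := h2.trans (h4.trans h5.le)
  have h7 := Nat.le_of_mul_le_mul_right h6 (by omega)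
  rw [hm] at h7
  omega

end Pool.Agent.Work.MP_d1af35_lc
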